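import Pool.Agent.H20.ER3.Defs

/-!
# MP_816b90_co: Operation C, targets
-/

set_option autoImplicit false

namespace Pool.Agent.H20.ER3

open Pool.Agent.H48.ER Pool.Agent.H52.ER2 Pool.Agent.H66.ER2

/-! ### L. Prisms in index form, paths in prisms -/

/-- (PA) from a prism to the index form -/
def U_PA : Prop := ∀ (W : Type) (M : SimpleGraph W) (a b : Fin 3 → W) (n : Fin 3 → ℕ)
  (P : Fin 3 → Set W), Prism M a b n P → ∃ g : Fin 3 → ℕ → W, PI M n g ∧ (∀ i, a i = g i 0) ∧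
    (∀ i, b i = g i (n i)) ∧ ∀ i, P i = seg (g i) 0 (n i)

/-- (PB) from the index form to a prism -/
def U_PB : Prop := ∀ (W : Type) (M : SimpleGraph W) (n : Fin 3 → ℕ) (g : Fin 3 → ℕ → W),
  PI M n g → Prism M (fun i => g i 0) (fun i => g i (n i)) n (fun i => seg (g i) 0 (n i))

/-- (PP) permutation of the rungs and exchange of the two triangles -/
def U_PP : Prop := ∀ (W : Type) (M : SimpleGraph W) (n : Fin 3 → ℕ) (g : Fin 3 → ℕ → W),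
  PI M n g →
  (∀ σ : Fin 3 → Fin 3, Function.Injective σ → PI M (fun i => n (σ i)) (fun i => g (σ i)) ∧
    vI (fun i => n (σ i)) (fun i => g (σ i)) = vI n g) ∧
  PI M n (fun i k => g i (n i - k)) ∧ vI n (fun i k => g i (n i - k)) = vI n g

/-- (PS) a segment of a rung -/
def U_PS : Prop := ∀ (W : Type) (M : SimpleGraph W) (n : Fin 3 → ℕ) (g : Fin 3 → ℕ → W)
  (i : Fin 3) (k l : ℕ), PI M n g → k ≤ l → l ≤ n i →
  IP M (l - k) (g i k) (g i l) (seg (g i) k l)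

/-- (PX) the path through `g i 0`, `g j 0` -/
def U_PX : Prop := ∀ (W : Type) (M : SimpleGraph W) (n : Fin 3 → ℕ) (g : Fin 3 → ℕ → W)
  (i j : Fin 3) (k l : ℕ), PI M n g → i ≠ j → k ≤ n i → l ≤ n j → ¬ (k = n i ∧ l = n j) →
  IP M (k + 1 + l) (g i k) (g j l) (seg (g i) 0 k ∪ seg (g j) 0 l)

/-- (PY) the path through `g i (n i)`, `g j (n j)` -/
def U_PY : Prop := ∀ (W : Type) (M : SimpleGraph W) (n : Fin 3 → ℕ) (g : Fin 3 → ℕ → W)
  (i j : Fin 3) (k l : ℕ), PI M n g → i ≠ j → k ≤ n i → l ≤ n j → ¬ (k = 0 ∧ l = 0) →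
  IP M ((n i - k) + 1 + (n j - l)) (g i k) (g j l) (seg (g i) k (n i) ∪ seg (g j) l (n j))

/-- (PZ) the path through `g i 0`, the rung `m` and `g j (n j)` -/
def U_PZ : Prop := ∀ (W : Type) (M : SimpleGraph W) (n : Fin 3 → ℕ) (g : Fin 3 → ℕ → W)
  (i j m : Fin 3) (k l : ℕ), PI M n g → i ≠ j → i ≠ m → j ≠ m → k < n i → 0 < l → l ≤ n j →
  IP M (k + 1 + n m + 1 + (n j - l)) (g i k) (g j l)
    (seg (g i) 0 k ∪ seg (g m) 0 (n m) ∪ seg (g j) l (n j))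

/-- (PW) the path through `g i 0`, the rung `m` and `g i (n i)` -/
def U_PW : Prop := ∀ (W : Type) (M : SimpleGraph W) (n : Fin 3 → ℕ) (g : Fin 3 → ℕ → W)
  (i m : Fin 3) (k l : ℕ), PI M n g → i ≠ m → k + 2 ≤ l → l ≤ n i →
  IP M (k + 1 + n m + 1 + (n i - l)) (g i k) (g i l)
    (seg (g i) 0 k ∪ seg (g m) 0 (n m) ∪ seg (g i) l (n i))

/-- (PR) replacement of the rung `0` by the path `h 0, .., h m` -/
def U_PR : Prop := ∀ (W : Type) (M : SimpleGraph W) (n : Fin 3 → ℕ) (g : Fin 3 → ℕ → W) (m : ℕ)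
  (h : ℕ → W), PI M n g → 1 ≤ m → PF M m h →
  (∀ j k l, j ≠ 0 → k ≤ m → l ≤ n j → h k ≠ g j l ∧
    (M.Adj (h k) (g j l) ↔ (k = 0 ∧ l = 0) ∨ (k = m ∧ l = n j))) →
  PI M (Function.update n 0 m) (Function.update g 0 h)

/-! ### G. The mixed graph -/

/-- (GA) paths of `G` and paths of the mixed graph without roots -/
def U_GA : Prop := ∀ (V : Type) (G : SimpleGraph V) (R : Set V) (n : ℕ),
  (∀ (x y : V) (X : Set V), IP G n x y X → IP (MG G R) n (Sum.inl x) (Sum.inl y) (Sum.inl '' X)) ∧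
  ∀ (x y : V ⊕ Set V) (Z : Set (V ⊕ Set V)), IP (MG G R) n x y Z → rt Z = ∅ →
    ∃ (x' y' : V) (X : Set V), x = Sum.inl x' ∧ y = Sum.inl y' ∧ Z = Sum.inl '' X ∧ IP G n x' y' X

/-- (GB) prisms of `G` and prisms of the mixed graph without roots -/
def U_GB : Prop := ∀ (V : Type) (G : SimpleGraph V) (R : Set V) (n : Fin 3 → ℕ),
  (∀ g : Fin 3 → ℕ → V, PI G n g → PI (MG G R) n (fun i k => Sum.inl (g i k))) ∧
  ∀ g : Fin 3 → ℕ → V ⊕ Set V, PI (MG G R) n g → rt (vI n g) = ∅ →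
    ∃ g' : Fin 3 → ℕ → V, PI G n g' ∧ ∀ i k, k ≤ n i → g i k = Sum.inl (g' i k)

/-- (GE) rule E: paths through `R` are even -/
def U_GE : Prop := ∀ (V : Type) (G : SimpleGraph V) (R : Set V) (n : ℕ) (x y : V ⊕ Set V)
  (X : Set (V ⊕ Set V)), EvS G R → IP (MG G R) n x y X → n ≠ 1 → ¬ InR R x → ¬ InR R y →
  (∀ w ∈ X, w = x ∨ w = y ∨ InR R w) → Even n

/-- (GU) the union of two sets which touch -/
def U_GU : Prop := ∀ (V : Type) (G : SimpleGraph V) (R F F' : Set V), F ⊆ R → F' ⊆ R → Cn G F →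
  Cn G F' → Tch G F F' → Cn G (F ∪ F') ∧ (∀ w, (MG G R).Adj (Sum.inr (F ∪ F')) w ↔
    (MG G R).Adj (Sum.inr F) w ∨ (MG G R).Adj (Sum.inr F') w) ∧
  ∀ Z Z' : Set (V ⊕ Set V), Sp G R Z → Sum.inr F ∈ Z → Sum.inr F' ∈ Z →
    Z' ⊆ insert (Sum.inr (F ∪ F')) Z → Sp G R Z'

/-- (GP) parity: a root `D` which sees exactly the ends of a path -/
def U_GP : Prop := ∀ (V : Type) (o : Prop) (G : SimpleGraph V) (R D : Set V) (n : ℕ)
  (x y : V ⊕ Set V) (X : Set (V ⊕ Set V)), HMs o G R → IP (MG G R) n x y X → n ≠ 1 →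
  (∀ w ∈ X, (MG G R).Adj (Sum.inr D) w ↔ w = x ∨ w = y) → Al o G R (insert (Sum.inr D) X) → Even n

/-- (GW) weights -/
def U_GW : Prop := ∀ (V : Type) [Finite V] (Z Z' : Set (V ⊕ Set V)) (F : Set V), F ∈ rt Z →
  (∀ F0 : Set V, F0.ncard < F.ncard → rt Z' ⊆ insert F0 (rt Z \ {F}) → wt Z' < wt Z) ∧
  (∀ F' ∈ rt Z, F ≠ F' → rt Z' ⊆ insert (F ∪ F') (rt Z \ {F, F'}) → wt Z' < wt Z) ∧
  (rt Z' ⊆ rt Z \ {F} → wt Z' < wt Z)

/-- (CL) contact lemma -/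
def U_CL : Prop := ∀ (V : Type) (G : SimpleGraph V) (R F F' : Set V) (m m' : ℕ) (c c' d d' : V),
  EvS G R → AsS G R → F ⊆ R → F' ⊆ R → c ∉ R → c' ∉ R → d ∉ R → d' ∉ R → Int G F m c c' →
  Int G F' m' d d' → G.Adj c' d → c ≠ d' → ¬ G.Adj c c' → ¬ G.Adj c d → ¬ G.Adj c d' →
  ¬ G.Adj c' d' → ¬ G.Adj d d' → (∀ f ∈ F, ¬ G.Adj d f ∧ ¬ G.Adj d' f) →
  (∀ f ∈ F', ¬ G.Adj c f ∧ ¬ G.Adj c' f) → ¬ Tch G F F'

/-! ### H. Holes -/

/-- (HA) in a minimal odd hole every root is the interior of a path -/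
def U_HA : Prop := ∀ (V : Type) [Finite V] (o : Prop) (G : SimpleGraph V) (R F : Set V) (n : ℕ)
  (x y : V ⊕ Set V) (X : Set (V ⊕ Set V)), EvS G R → MH o G R n x y (Sum.inr F) X →
  ∃ (c d : V) (m : ℕ), x = Sum.inl c ∧ y = Sum.inl d ∧ Sees G R F c ∧ Sees G R F d ∧
    ¬ G.Adj c d ∧ Int G F m c d ∧ Even m

/-- (HB) expansion of a root of a minimal odd hole -/
def U_HB : Prop := ∀ (V : Type) [Finite V] (o : Prop) (G : SimpleGraph V) (R F : Set V) (n : ℕ)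
  (x y : V ⊕ Set V) (X : Set (V ⊕ Set V)), EvS G R → MH o G R n x y (Sum.inr F) X →
  ∃ F' ∈ rt X, Tch G F F'

/-- (HC) two roots of a minimal odd hole do not touch -/
def U_HC : Prop := ∀ (V : Type) [Finite V] (G : SimpleGraph V) (R F F' : Set V) (n : ℕ)
  (x y : V ⊕ Set V) (X : Set (V ⊕ Set V)), EvS G R → AsS G R →
  MH False G R n x y (Sum.inr F) X → F' ∈ rt X → ¬ Tch G F F'

/-- (HM) every hole of the mixed graph with allowed vertex set is even -/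
def U_HM : Prop := ∀ (V : Type) [Finite V] (o : Prop) (G : SimpleGraph V) (R : Set V), NOH G →
  EvS G R → (¬ o → AsS G R) → HMs o G R

/-! ### P. Prisms -/

/-- (QA) in a minimal odd prism a root in the interior of a rung is the interior of a path -/
def U_QA : Prop := ∀ (V : Type) [Finite V] (o : Prop) (G : SimpleGraph V) (R F : Set V)
  (n : Fin 3 → ℕ) (g : Fin 3 → ℕ → V ⊕ Set V) (k : ℕ), EvS G R → MP o G R n g → 0 < k →
  k < n 0 → g 0 k = Sum.inr F → ∃ (c d : V) (m : ℕ), g 0 (k - 1) = Sum.inl c ∧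
    g 0 (k + 1) = Sum.inl d ∧ Sees G R F c ∧ Sees G R F d ∧ Int G F m c d ∧ Even m

/-- (QB) expansion of a root in the interior of a rung -/
def U_QB : Prop := ∀ (V : Type) [Finite V] (o : Prop) (G : SimpleGraph V) (R F : Set V)
  (n : Fin 3 → ℕ) (g : Fin 3 → ℕ → V ⊕ Set V) (k : ℕ), EvS G R → MP o G R n g → 0 < k →
  k < n 0 → g 0 k = Sum.inr F → ∃ F' ∈ rt (vI n g), F' ≠ F ∧ Tch G F F'

/-- (QC) the root of a corner in a minimal odd prism -/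
def U_QC : Prop := ∀ (V : Type) [Finite V] (o : Prop) (G : SimpleGraph V) (R F : Set V)
  (n : Fin 3 → ℕ) (g : Fin 3 → ℕ → V ⊕ Set V), EvS G R → HMs o G R → MP o G R n g →
  g 0 0 = Sum.inr F → ∃ (y a2 a3 f f' : V) (m : ℕ), g 0 1 = Sum.inl y ∧ g 1 0 = Sum.inl a2 ∧
    g 2 0 = Sum.inl a3 ∧ Sees G R F y ∧ Sees G R F a2 ∧ Sees G R F a3 ∧ Cr G F m f f' y a2 a3

/-- (QD) expansion of the root of a corner -/
def U_QD : Prop := ∀ (V : Type) [Finite V] (o : Prop) (G : SimpleGraph V) (R F : Set V)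
  (n : Fin 3 → ℕ) (g : Fin 3 → ℕ → V ⊕ Set V), EvS G R → HMs o G R → MP o G R n g →
  g 0 0 = Sum.inr F → ∃ F' ∈ rt (vI n g), F' ≠ F ∧ Tch G F F'

/-- (QE) symmetries of minimal odd prisms -/
def U_QE : Prop := ∀ (V : Type) (o : Prop) (G : SimpleGraph V) (R : Set V)
  (n : Fin 3 → ℕ) (g : Fin 3 → ℕ → V ⊕ Set V), MP o G R n g →
  (∀ σ : Fin 3 → Fin 3, Function.Injective σ → MP o G R (fun i => n (σ i)) (fun i => g (σ i))) ∧
  MP o G R n (fun i k => g i (n i - k))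

/-- (Q1) two touching roots in the interior of the same rung -/
def U_Q1 : Prop := ∀ (V : Type) [Finite V] (G : SimpleGraph V) (R F F' : Set V)
  (n : Fin 3 → ℕ) (g : Fin 3 → ℕ → V ⊕ Set V) (k l : ℕ), EvS G R → AsS G R → HMs False G R →
  MP False G R n g → 0 < k → k < l → l < n 0 → g 0 k = Sum.inr F → g 0 l = Sum.inr F' →
  ¬ Tch G F F'

/-- (Q2) two touching roots in the interior of different rungs -/
def U_Q2 : Prop := ∀ (V : Type) [Finite V] (G : SimpleGraph V) (R F F' : Set V)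
  (n : Fin 3 → ℕ) (g : Fin 3 → ℕ → V ⊕ Set V) (k l : ℕ), HMs False G R →
  MP False G R n g → 0 < k → k < n 0 → 0 < l → l < n 1 → g 0 k = Sum.inr F → g 1 l = Sum.inr F' →
  ¬ Tch G F F'

/-- (Q3) a corner and the interior of the same rung -/
def U_Q3 : Prop := ∀ (V : Type) [Finite V] (G : SimpleGraph V) (R F F' : Set V)
  (n : Fin 3 → ℕ) (g : Fin 3 → ℕ → V ⊕ Set V) (k : ℕ), HMs False G R →
  MP False G R n g → 0 < k → k < n 0 → g 0 0 = Sum.inr F → g 0 k = Sum.inr F' → ¬ Tch G F F'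

/-- (Q4) a corner and the interior of another rung -/
def U_Q4 : Prop := ∀ (V : Type) [Finite V] (G : SimpleGraph V) (R F F' : Set V)
  (n : Fin 3 → ℕ) (g : Fin 3 → ℕ → V ⊕ Set V) (k : ℕ), EvS G R → AsS G R → HMs False G R →
  MP False G R n g → 0 < k → k < n 1 → g 0 0 = Sum.inr F → g 1 k = Sum.inr F' → ¬ Tch G F F'

/-- (Q5) the two corners of a rung -/
def U_Q5 : Prop := ∀ (V : Type) [Finite V] (G : SimpleGraph V) (R F F' : Set V)
  (n : Fin 3 → ℕ) (g : Fin 3 → ℕ → V ⊕ Set V), EvS G R → AsS G R → HMs False G R →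
  MP False G R n g → g 0 0 = Sum.inr F → g 0 (n 0) = Sum.inr F' → ¬ Tch G F F'

/-- (Q6) corners of different rungs, the case of two long rungs -/
def U_Q6 : Prop := ∀ (V : Type) [Finite V] (G : SimpleGraph V) (R F F' : Set V)
  (n : Fin 3 → ℕ) (g : Fin 3 → ℕ → V ⊕ Set V), EvS G R → AsS G R → HMs False G R →
  MP False G R n g → g 0 0 = Sum.inr F → g 1 (n 1) = Sum.inr F' → Tch G F F' →
  n 2 = 1 ∧ (n 0 = 1 ∨ n 1 = 1)

/-- (Q7) corners of different rungs, one long rung -/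
def U_Q7 : Prop := ∀ (V : Type) [Finite V] (G : SimpleGraph V) (R F F' : Set V)
  (n : Fin 3 → ℕ) (g : Fin 3 → ℕ → V ⊕ Set V), NOH G → EvS G R → AsS G R → HMs False G R →
  MP False G R n g → g 0 0 = Sum.inr F → g 1 (n 1) = Sum.inr F' → n 0 = 1 → n 2 = 1 →
  Tch G F F' → n 1 = 1

/-- (Q8) corners of different rungs, all rungs of length one -/
def U_Q8 : Prop := ∀ (V : Type) [Finite V] (G : SimpleGraph V) (R F F' : Set V)
  (n : Fin 3 → ℕ) (g : Fin 3 → ℕ → V ⊕ Set V), NOH G → EvS G R → X7 G R → HMs False G R →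
  MP False G R n g → g 0 0 = Sum.inr F → g 1 1 = Sum.inr F' → (∀ i, n i = 1) → ¬ Tch G F F'

/-- (QM) no odd prism of the mixed graph with allowed vertex set -/
def U_QM : Prop := ∀ (V : Type) [Finite V] (o : Prop) (G : SimpleGraph V) (R : Set V), NOH G →
  NOP G → EvS G R → (¬ o → AsS G R ∧ X7 G R) → HMs o G R → PMs o G R

/-! ### A. Antiholes -/

/-- (AA) the index form of antiholes -/
def U_AA : Prop := ∀ (V : Type) (G : SimpleGraph V),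
  NAH G ↔ ∀ (N : ℕ) (w : ℕ → V), 5 ≤ N → ¬ AHI G N w

/-- (AC) a connected set which sees `u 2, .., u (N - 2)` contains a vertex which sees all of
them -/
def U_AC : Prop := ∀ (V : Type) [Finite V] (G : SimpleGraph V) (R F : Set V) (N : ℕ)
  (u : ℕ → V), NOH G → EvS G R → F ⊆ R → Cn G F → 7 ≤ N →
  (∀ i, 2 ≤ i → i + 2 ≤ N → u i ∉ R ∧ ∃ f ∈ F, G.Adj (u i) f) →
  (∀ i j, 2 ≤ i → i < j → j + 2 ≤ N → u i ≠ u j ∧ (G.Adj (u i) (u j) ↔ i + 1 ≠ j)) →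
  (∀ F' ⊆ F, Cn G F' → (∀ i, 2 ≤ i → i + 2 ≤ N → ∃ f ∈ F', G.Adj (u i) f) ∨
    ∀ i, 2 ≤ i → i + 3 ≤ N → ¬ ((∃ f ∈ F', G.Adj (u i) f) ∧ ∃ f ∈ F', G.Adj (u (i + 1)) f)) →
  ∃ f ∈ F, ∀ i, 2 ≤ i → i + 2 ≤ N → G.Adj (u i) f

/-- (AR) a root of a smallest antihole can be replaced by one vertex -/
def U_AR : Prop := ∀ (V : Type) [Finite V] (o : Prop) (G : SimpleGraph V) (R F : Set V) (N : ℕ)
  (w : ℕ → V ⊕ Set V), NOH G → EvS G R → AHI (OC G R) N w → 7 ≤ N →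
  (o → (rt {v | ∃ i, i < N ∧ w i = v}).Subsingleton) →
  (∀ (N' : ℕ) (w' : ℕ → V ⊕ Set V), 5 ≤ N' → N' < N → AHI (OC G R) N' w' →
    ¬ (o → (rt {v | ∃ i, i < N' ∧ w' i = v}).Subsingleton)) →
  w 0 = Sum.inr F → F ⊆ R ∧ ∃ f ∈ F, ∀ (i : ℕ) (v : V), 0 < i → i < N → w i = Sum.inl v →
    (G.Adj v f ↔ 2 ≤ i ∧ i + 2 ≤ N)

/-- (AM) no antiholes in Operation C -/
def U_AM : Prop := ∀ (V : Type) [Finite V] (o : Prop) (G : SimpleGraph V) (R : Set V), Cls G →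
  EvS G R → (¬ o → X7 G R) → HMs o G R → PMs o G R → AMs o G R

/-! ### S. The other component, and L1 -/

/-- (SE) the other component is even -/
def U_SE : Prop := ∀ (V : Type) (G : SimpleGraph V) (R S : Set V), NOH G → Cn G R → EvS G R →
  Star G R S → EvS G S

/-- (SX) the antiholes with the new vertex `x` -/
def U_SX : Prop := ∀ (V : Type) (G : SimpleGraph V) (R S : Set V), Star G R S → AMs True G S →
  X7 G R

/-- (L1) the class is closed under Operation C -/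
def U_L1 : Prop := ∀ (V : Type) [Finite V] (G : SimpleGraph V) (R S : Set V), Cls G → Cn G R →
  EvS G R → AsS G R → Star G R S → Cls (OC G R)

/-! ### C. Lift: contraction of the pair -/

/-- (CA) Operation C and contraction commute -/
def U_CA : Prop := ∀ (V : Type) (G : SimpleGraph V) (R : Set V) (p q : V), p ∉ R → q ∉ R →
  p ≠ q → OC (ctr G p q) R = ctr (OC G R) (Sum.inl p) (Sum.inl q)

/-- (CB) the pair is even in `G` -/
def U_CB : Prop := ∀ (V : Type) [Finite V] (G : SimpleGraph V) (R : Set V) (p q : V), EvS G R →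
  p ∉ R → q ∉ R → EvP (OC G R) (Sum.inl p) (Sum.inl q) → EvP G p q

/-- (CC) `R` is even after the contraction -/
def U_CC : Prop := ∀ (V : Type) (G : SimpleGraph V) (R : Set V) (p q : V), EvS G R →
  p ∉ R → q ∉ R → p ≠ q → ¬ G.Adj p q → EvS (ctr G p q) R

/-- (CD) `R` is asymmetric after the contraction -/
def U_CD : Prop := ∀ (V : Type) (G : SimpleGraph V) (R : Set V) (p q : V), AsS G R →
  p ∉ R → q ∉ R → EvP (OC G R) (Sum.inl p) (Sum.inl q) → AsS (ctr G p q) R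

/-- (C0) there is a vertex of `R` on the prism -/
def U_C0 : Prop := ∀ (V : Type) (H : SimpleGraph V) (R : Set V) (n : Fin 3 → ℕ)
  (g : Fin 3 → ℕ → V ⊕ Set V), NOP (OC H R) → PI (MG H R) n g → (∀ i, Odd (n i)) →
  ∃ i k, k ≤ n i ∧ InR R (g i k)

/-- (C1) contraction of an interval of a rung to one root -/
def U_C1 : Prop := ∀ (V : Type) [Finite V] (H : SimpleGraph V) (R : Set V) (n : Fin 3 → ℕ)
  (g : Fin 3 → ℕ → V ⊕ Set V) (k l : ℕ), EvS H R → MR H R n g → k + 2 ≤ l → l ≤ n 0 →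
  ¬ InR R (g 0 k) → ¬ InR R (g 0 l) → ¬ ∀ x, k < x → x < l → InR R (g 0 x)

/-- (C2) contraction of a corner -/
def U_C2 : Prop := ∀ (V : Type) [Finite V] (H : SimpleGraph V) (R : Set V) (n : Fin 3 → ℕ)
  (g : Fin 3 → ℕ → V ⊕ Set V) (l : ℕ), EvS H R → MR H R n g → 1 ≤ l → l ≤ n 0 →
  (∀ x, x < l → InR R (g 0 x)) → ¬ InR R (g 0 l) → ¬ InR R (g 1 0) → InR R (g 2 0)

/-- (C3) exactly two corners of a triangle in `R` -/
def U_C3 : Prop := ∀ (V : Type) (H : SimpleGraph V) (R : Set V) (n : Fin 3 → ℕ)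
  (g : Fin 3 → ℕ → V ⊕ Set V) (l : Fin 3 → ℕ), EvS H R → AsS H R → PI (MG H R) n g →
  (∀ i, Odd (n i)) → (∀ i, i ≠ 2 → 1 ≤ l i ∧ l i ≤ n i ∧ (∀ x, x < l i → InR R (g i x)) ∧
    ¬ InR R (g i (l i))) → InR R (g 2 0)

/-- (C4) three corners of a triangle in `R` -/
def U_C4 : Prop := ∀ (V : Type) (H : SimpleGraph V) (R : Set V) (n : Fin 3 → ℕ)
  (g : Fin 3 → ℕ → V ⊕ Set V) (l : Fin 3 → ℕ), EvS H R → AsS H R → PI (MG H R) n g →
  (∀ i, Odd (n i)) → (∀ i, 1 ≤ l i ∧ l i ≤ n i ∧ (∀ x, x < l i → InR R (g i x)) ∧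
    ¬ InR R (g i (l i))) → ∀ i, l i = n i

/-- (C5) a rung in `R`, two corners outside of `R` -/
def U_C5 : Prop := ∀ (V : Type) (H : SimpleGraph V) (R : Set V) (n : Fin 3 → ℕ)
  (g : Fin 3 → ℕ → V ⊕ Set V), EvS H R → PI (MG H R) n g → (∀ i, Odd (n i)) →
  (∀ x, x ≤ n 0 → InR R (g 0 x)) → InR R (g 1 0) ∨ InR R (g 2 (n 2))

/-- (C7) a rung in `R`, the corners `g 1 0`, `g 2 0` in `R` -/
def U_C7 : Prop := ∀ (V : Type) (H : SimpleGraph V) (R : Set V) (n : Fin 3 → ℕ)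
  (g : Fin 3 → ℕ → V ⊕ Set V) (l : Fin 3 → ℕ), EvS H R → PI (MG H R) n g →
  (∀ i, Odd (n i)) → (∀ x, x ≤ n 0 → InR R (g 0 x)) → (∀ i, i ≠ 0 → 1 ≤ l i ∧ l i ≤ n i ∧
    (∀ x, x < l i → InR R (g i x)) ∧ ¬ InR R (g i (l i)) ∧ ¬ InR R (g i (n i))) →
  ∀ i, i ≠ 0 → l i = n i

/-- (C8) a rung in `R`, and a rung with both ends in `R` and with a gap -/
def U_C8 : Prop := ∀ (V : Type) (H : SimpleGraph V) (R : Set V) (n : Fin 3 → ℕ)
  (g : Fin 3 → ℕ → V ⊕ Set V) (s t : ℕ), EvS H R → AsS H R → PI (MG H R) n g →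
  (∀ i, Odd (n i)) → (∀ x, x ≤ n 0 → InR R (g 0 x)) → 1 ≤ s → s ≤ t → t < n 1 →
  (∀ x, x < s → InR R (g 1 x)) → ¬ InR R (g 1 s) → ¬ InR R (g 1 t) →
  (∀ x, t < x → x ≤ n 1 → InR R (g 1 x)) → InR R (g 2 (n 2))

/-- (C9) a rung in `R`, and two rungs with both ends in `R` and with a gap -/
def U_C9 : Prop := ∀ (V : Type) (H : SimpleGraph V) (R : Set V) (n : Fin 3 → ℕ)
  (g : Fin 3 → ℕ → V ⊕ Set V) (s t : Fin 3 → ℕ), EvS H R → AsS H R → PI (MG H R) n g →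
  (∀ i, Odd (n i)) → (∀ x, x ≤ n 0 → InR R (g 0 x)) →
  ¬ ∀ i, i ≠ 0 → 1 ≤ s i ∧ s i ≤ t i ∧ t i < n i ∧ (∀ x, x < s i → InR R (g i x)) ∧
    ¬ InR R (g i (s i)) ∧ ¬ InR R (g i (t i)) ∧ ∀ x, t i < x → x ≤ n i → InR R (g i x)

/-! ### D. Lift: the special prisms of `ctr G p q` -/

/-- (D0) replacement of the new vertex by one of the two old vertices -/
def U_D0 : Prop := ∀ (V : Type) (G : SimpleGraph V) (p q : V) (n : Fin 3 → ℕ)
  (g : Fin 3 → ℕ → V), NOP G → PI (ctr G p q) n g → (∀ i, Odd (n i)) →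
  ∃ i k, k ≤ n i ∧ g i k = p ∧ ∀ z, z = p ∨ z = q →
    ∃ j l, l ≤ n j ∧ (ctr G p q).Adj p (g j l) ∧ ¬ G.Adj z (g j l)

/-- (DE) if the new vertex sees two adjacent vertices then `p` or `q` sees both -/
def U_DE : Prop := ∀ (V : Type) (G : SimpleGraph V) (p q u u' : V), EvP G p q →
  (ctr G p q).Adj p u → (ctr G p q).Adj p u' → G.Adj u u' →
  ∃ z, (z = p ∨ z = q) ∧ G.Adj z u ∧ G.Adj z u'

/-- (D1) the prism without three corners `g i (n i)` in `R` -/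
def U_D1 : Prop := ∀ (V : Type) (G : SimpleGraph V) (R : Set V) (p q : V) (n : Fin 3 → ℕ)
  (g : Fin 3 → ℕ → V), NOP G → EvS G R → p ∉ R → q ∉ R → EvP G p q → PI (ctr G p q) n g →
  (∀ i, Odd (n i)) → (∀ i, g i (n i) ∉ R) → ¬ ∀ i k, k < n i → g i k ∈ R

/-- (D2) the prism without two corners in `R` -/
def U_D2 : Prop := ∀ (V : Type) (G : SimpleGraph V) (R : Set V) (p q : V) (n : Fin 3 → ℕ)
  (g : Fin 3 → ℕ → V), NOH G → NOP G → EvS G R → p ∉ R → q ∉ R → EvP G p q →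
  PI (ctr G p q) n g → (∀ i, Odd (n i)) → g 1 (n 1) ∉ R → g 2 (n 2) ∉ R →
  ¬ ∀ i k, k ≤ n i → (i ≠ 0 → k < n i) → g i k ∈ R

/-- (D3) the prism without one vertex in `R`, in the interior of a rung -/
def U_D3 : Prop := ∀ (V : Type) (G : SimpleGraph V) (R S : Set V) (p q : V) (n : Fin 3 → ℕ)
  (g : Fin 3 → ℕ → V) (k : ℕ), NOP G → EvP G p q → Star G R S → PMs True G S → p ∉ R → q ∉ R →
  PI (ctr G p q) n g → (∀ i, Odd (n i)) → 0 < k → k < n 0 → g 0 k ∉ R →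
  ¬ ∀ i l, l ≤ n i → ¬ (i = 0 ∧ l = k) → g i l ∈ R

/-- (D4) the prism without one corner in `R` -/
def U_D4 : Prop := ∀ (V : Type) (G : SimpleGraph V) (R S : Set V) (p q : V) (n : Fin 3 → ℕ)
  (g : Fin 3 → ℕ → V), NOH G → NOP G → EvP G p q → Star G R S → PMs True G S → p ∉ R → q ∉ R →
  PI (ctr G p q) n g → (∀ i, Odd (n i)) → g 0 (n 0) ∉ R →
  ¬ ∀ i l, l ≤ n i → ¬ (i = 0 ∧ l = n 0) → g i l ∈ R

/-- (D5) the prism without two consecutive vertices of a rung in `R` -/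
def U_D5 : Prop := ∀ (V : Type) (G : SimpleGraph V) (R : Set V) (p q : V) (n : Fin 3 → ℕ)
  (g : Fin 3 → ℕ → V) (k : ℕ), NOP G → EvS G R → EvP G p q → p ∉ R → q ∉ R →
  PI (ctr G p q) n g → (∀ i, Odd (n i)) → k < n 0 → g 0 k ∉ R → g 0 (k + 1) ∉ R →
  ¬ ∀ i l, l ≤ n i → ¬ (i = 0 ∧ (l = k ∨ l = k + 1)) → g i l ∈ R

/-- (D6) the prism in `R` except for an interval of at least three vertices of a rung -/
def U_D6 : Prop := ∀ (V : Type) (G : SimpleGraph V) (R S : Set V) (p q : V) (n : Fin 3 → ℕ)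
  (g : Fin 3 → ℕ → V ⊕ Set V) (k l : ℕ), EvS G R → EvP G p q → Star G R S → PMs True G S →
  p ∉ R → q ∉ R → EvS (ctr G p q) R → PI (MG (ctr G p q) R) n g → (∀ i, Odd (n i)) →
  k + 2 ≤ l → l ≤ n 0 → ¬ InR R (g 0 k) → ¬ InR R (g 0 l) →
  ¬ ∀ i x, x ≤ n i → ¬ (i = 0 ∧ k ≤ x ∧ x ≤ l) → InR R (g i x)

/-- (D7) the prism in `R` except for an interval of a rung -/
def U_D7 : Prop := ∀ (V : Type) (G : SimpleGraph V) (R S : Set V) (p q : V) (n : Fin 3 → ℕ)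
  (g : Fin 3 → ℕ → V ⊕ Set V) (k l : ℕ), Cls G → EvS G R → EvP G p q → Star G R S →
  PMs True G S → p ∉ R → q ∉ R → EvS (ctr G p q) R → PI (MG (ctr G p q) R) n g →
  (∀ i, Odd (n i)) → k ≤ l → l ≤ n 0 → ¬ InR R (g 0 k) → ¬ InR R (g 0 l) →
  ¬ ∀ i x, x ≤ n i → ¬ (i = 0 ∧ k ≤ x ∧ x ≤ l) → InR R (g i x)

/-! ### E. Lift: assembly -/

/-- (EA) the pattern of a rung of a minimal prism: the rung is contained in `R`, or there are a
first and a last vertex which is not in `R`, and no vertex of `R` between them -/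
def U_EA : Prop := ∀ (V : Type) [Finite V] (H : SimpleGraph V) (R : Set V) (n : Fin 3 → ℕ)
  (g : Fin 3 → ℕ → V ⊕ Set V), EvS H R → MR H R n g → ∀ i, (∀ x, x ≤ n i → InR R (g i x)) ∨
    ∃ s t, s ≤ t ∧ t ≤ n i ∧ (∀ x, x < s → InR R (g i x)) ∧
      (∀ x, s ≤ x → x ≤ t → ¬ InR R (g i x)) ∧ ∀ x, t < x → x ≤ n i → InR R (g i x)

/-- (EB) no rung is contained in `R` -/
def U_EB : Prop := ∀ (V : Type) [Finite V] (G : SimpleGraph V) (R : Set V) (p q : V)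
  (n : Fin 3 → ℕ) (g : Fin 3 → ℕ → V ⊕ Set V), Cls G → EvS G R → EvP G p q → p ∉ R → q ∉ R →
  EvS (ctr G p q) R → AsS (ctr G p q) R → NOP (OC (ctr G p q) R) → MR (ctr G p q) R n g →
  ∃ i, ∀ x, x ≤ n i → InR R (g i x)

/-- (EC) a rung is contained in `R` -/
def U_EC : Prop := ∀ (V : Type) [Finite V] (G : SimpleGraph V) (R S : Set V) (p q : V)
  (n : Fin 3 → ℕ) (g : Fin 3 → ℕ → V ⊕ Set V), Cls G → EvS G R → EvP G p q → Star G R S →
  PMs True G S → p ∉ R → q ∉ R → EvS (ctr G p q) R → AsS (ctr G p q) R →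
  MR (ctr G p q) R n g → ¬ ∀ x, x ≤ n 0 → InR R (g 0 x)

/-- (L2) a good pair of Operation C is a good pair -/
def U_L2 : Prop := ∀ (V : Type) [Finite V] (G : SimpleGraph V) (R S : Set V) (p q : V), Cls G →
  Cn G R → EvS G R → AsS G R → Star G R S → p ∉ R → q ∉ R →
  Gd (OC G R) (Sum.inl p) (Sum.inl q) → Gd G p q

/-! ### F. The induction step -/

/-- `(S)` for the sets `Y` whose complement has less than `N` elements -/
def SN (N : ℕ) : Prop := ∀ (V : Type) [Finite V] (G : SimpleGraph V) (Y : Set V), Cls G →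
  (∀ u ∈ Y, ∀ w ∈ Y, ¬ G.Adj u w) → (Yᶜ).ncard < N → ¬ Clq G Yᶜ →
  ∃ x ∉ Y, ∃ y ∉ Y, Gd G x y

/-- (FS) the induction step by Operation C -/
def U_FS : Prop := ∀ (V : Type) [Finite V] (G : SimpleGraph V) (R S Y : Set V), Cls G →
  Cn G R → EvS G R → AsS G R → Star G R S → (∀ u ∈ Y, ∀ w ∈ Y, ¬ G.Adj u w) →
  (∀ u ∈ Y, u ∉ R → ∀ r ∈ R, ¬ G.Adj u r) → ¬ R ⊆ Y → ¬ Clq G (Y ∪ R)ᶜ → SN (Yᶜ).ncard → ∃ x ∉ Y, ∃ y ∉ Y, Gd G x y

end Pool.Agent.H20.ER3
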