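import Pool.Agent.H20.ER3.Lib

/-!
# MP_816b90_co: Operation C, the contact lemma
-/

set_option autoImplicit false
set_option linter.unusedVariables false

namespace Pool.Agent.H20.ER3

open Pool.Agent.H48.ER Pool.Agent.H52.ER2 Pool.Agent.H66.ER2

variable {V : Type} {G : SimpleGraph V} {R : Set V}

/-- the path function of the interior of a path -/
theorem Int.fn {F : Set V} {m : ℕ} {c d : V} (h : Int G F m c d) :
    ∃ p : ℕ → V, PF G m p ∧ p 0 = c ∧ p m = d ∧ ∀ w, w ∈ F ↔ ∃ i, 0 < i ∧ i < m ∧ p i = w := by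
  obtain ⟨h2, hc, hd, hp⟩ := h
  obtain ⟨p, pf, p0, pm, hX⟩ := IP.pf hp
  refine ⟨p, pf, p0, pm, ?_⟩
  intro w
  constructor
  · intro hw
    have : w ∈ seg p 0 m := by
      rw [← hX]; exact Set.mem_insert_of_mem _ (Set.mem_insert_of_mem _ hw)
    obtain ⟨i, _, hi, rfl⟩ := this
    refine ⟨i, ?_, ?_, rfl⟩
    · rcases Nat.eq_zero_or_pos i with h0 | h0
      · subst h0; rw [p0] at hw; exact absurd hw hc
      · exact h0
    · rcases Nat.lt_or_ge i m with h0 | h0
      · exact h0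
      · have : i = m := by omega
        subst this; rw [pm] at hw; exact absurd hw hd
  · rintro ⟨i, h0, hm, rfl⟩
    have : p i ∈ insert c (insert d F) := by rw [hX]; exact mem_seg (Nat.zero_le _) hm.le
    rcases this with e | e | e
    · exfalso
      have := pf.inj i 0 hm.le (Nat.zero_le _) (by rw [e, p0]); omega
    · exfalso
      have := pf.inj i m hm.le le_rfl (by rw [e, pm]); omega
    · exact e

theorem Int.symm {F : Set V} {m : ℕ} {c d : V} (h : Int G F m c d) : Int G F m d c :=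
  ⟨h.1, h.2.2.1, h.2.1, by
    have := h.2.2.2.rev
    rwa [Set.insert_comm] at this⟩

/-- the interior of a path is connected -/
theorem Int.cn {F : Set V} {m : ℕ} {c d : V} (h : Int G F m c d) : Cn G F := by
  obtain ⟨p, pf, p0, pm, hF⟩ := h.fn
  have h2 := h.1
  have : F = seg p 1 (m - 1) := by
    ext w
    rw [hF]
    constructor
    · rintro ⟨i, a, b, e⟩
      exact ⟨i, a, by omega, e⟩
    · rintro ⟨i, a, b, e⟩
      exact ⟨i, a, by omega, e⟩
  rw [this]
  exact ip_cn (pf.seg (by omega) (by omega))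

/-- the ends of the path see the interior -/
theorem Int.sees {F : Set V} {m : ℕ} {c d : V} (h : Int G F m c d) (hR : F ⊆ R) (hc : c ∉ R) :
    Sees G R F c := by
  obtain ⟨p, pf, p0, pm, hF⟩ := h.fn
  have h2 := h.1
  refine ⟨hc, hR, h.cn, p 1, (hF _).2 ⟨1, by omega, by omega, rfl⟩, ?_⟩
  rw [← p0, pf.adj 0 1 (by omega) (by omega)]
  left; rfl

theorem half (hGU : U_GU) (hA : AsS G R) {F F' : Set V} {m : ℕ} {c c' d : V} {p : ℕ → V}
    (hF : F ⊆ R) (hF' : F' ⊆ R) (hc : c ∉ R) (hc' : c' ∉ R) (hd : d ∉ R) (hI : Int G F m c c')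
    (pf : PF G m p) (p0 : p 0 = c) (pm : p m = c')
    (hp : ∀ w, w ∈ F ↔ ∃ i, 0 < i ∧ i < m ∧ p i = w)
    (hd' : Sees G R F' d) (a1 : G.Adj c' d) (a2 : ¬ G.Adj c c') (a3 : ¬ G.Adj c d)
    (a4 : ∀ f ∈ F, ¬ G.Adj d f) (a5 : ∀ f ∈ F', ¬ G.Adj c' f) (i : ℕ) (hi : 0 < i)
    (him : i < m - 1) (f' : V) (hf' : f' ∈ F') : ¬ (p i = f' ∨ G.Adj (p i) f') := by
  intro ht
  have hsub : seg p 1 (m - 2) ⊆ R := by
    rintro w ⟨j, h1, h2, rfl⟩
    exact hF ((hp _).2 ⟨j, by omega, by omega, rfl⟩)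
  have hcn : Cn G (seg p 1 (m - 2)) := ip_cn (pf.seg (by omega) (by omega))
  have htc : Tch G (seg p 1 (m - 2)) F' := ⟨p i, mem_seg (by omega) (by omega), f', hf', ht⟩
  have hU := (hGU V G R (seg p 1 (m - 2)) F' hsub hF' hcn hd'.2.2.1 htc).1
  refine hA c c' d F (seg p 1 (m - 2) ∪ F') a1 a2 a3 (hI.sees hF hc) (hI.symm.sees hF hc')
    ?_ hd ?_ ?_ ?_
  · rintro ⟨_, _, _, f, hf, ha⟩
    exact a4 f hf ha
  · refine ⟨hc, Set.union_subset hsub hF', hU, p 1, Or.inl (mem_seg le_rfl (by omega)), ?_⟩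
    rw [← p0, pf.adj 0 1 (by omega) (by omega)]
    left; rfl
  · exact hd'.mono Set.subset_union_right (Set.union_subset hsub hF') hU
  · rintro ⟨_, _, _, f, hf, ha⟩
    rcases hf with ⟨j, h1, h2, rfl⟩ | hf
    · rw [← pm, pf.adj m j le_rfl (by omega)] at ha
      omega
    · exact a5 f hf ha

theorem pf_CL (hGU : U_GU) : U_CL := by
  intro V G R F F' m m' c c' d d' hE hA hF hF' hc hc' hd hd' hI hI' a1 a2 a3 a4 a5 a6 a7 a8 a9 ht
  obtain ⟨p, pf, p0, pm, hp⟩ := hI.fn
  obtain ⟨q, qf, q0, qm, hq⟩ := hI'.fn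
  have h2 := hI.1
  have h2' := hI'.1
  have H1 := half hGU hA hF hF' hc hc' hd hI pf p0 pm hp (hI'.sees hF' hd) a1 a3 a4
    (fun f hf => (a8 f hf).1) (fun f hf => (a9 f hf).2)
  have H2 := half (p := fun i => q (m' - i)) hGU hA hF' hF hd' hd hc' hI'.symm qf.rev
    (by simpa using qm) (by simpa using q0)
    (by
      intro w
      rw [hq]
      constructor
      · rintro ⟨i, h0, hm, rfl⟩
        exact ⟨m' - i, by omega, by omega, by show q (m' - (m' - i)) = q i; congr 1; omega⟩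
      · rintro ⟨i, h0, hm, rfl⟩
        exact ⟨m' - i, by omega, by omega, rfl⟩)
    (hI.symm.sees hF hc') a1.symm (fun h => a7 h.symm) (fun h => a6 h.symm)
    (fun f hf => (a9 f hf).2) (fun f hf => (a8 f hf).1)
  -- the contact vertices
  have key : ∀ i j, 0 < i → i < m → 0 < j → j < m' → (p i = q j ∨ G.Adj (p i) (q j)) →
      i = m - 1 ∧ j = 1 := by
    intro i j hi him hj hjm h
    constructor
    · by_contra hne
      exact H1 i hi (by omega) (q j) ((hq _).2 ⟨j, hj, hjm, rfl⟩) h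
    · by_contra hne
      refine H2 (m' - j) (by omega) (by omega) (p i) ((hp _).2 ⟨i, hi, him, rfl⟩) ?_
      have e : q (m' - (m' - j)) = q j := by congr 1; omega
      show q (m' - (m' - j)) = p i ∨ G.Adj (q (m' - (m' - j))) (p i)
      rw [e]
      rcases h with h | h
      · exact Or.inl h.symm
      · exact Or.inr h.symm
  have hne : p (m - 1) ≠ q 1 := by
    intro e
    refine (a9 (q 1) ((hq _).2 ⟨1, by omega, by omega, rfl⟩)).2 ?_
    rw [← e, ← pm, pf.adj m (m - 1) le_rfl (by omega)]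
    omega
  have hcon : G.Adj (p (m - 1)) (q 1) := by
    obtain ⟨f, hf, f', hf', h⟩ := ht
    obtain ⟨i, hi, him, rfl⟩ := (hp _).1 hf
    obtain ⟨j, hj, hjm, rfl⟩ := (hq _).1 hf'
    obtain ⟨e1, e2⟩ := key i j hi him hj hjm h
    subst e2; subst e1
    rcases h with h | h
    · exact absurd h hne
    · exact h
  have hneq : ∀ i j, i ≤ m - 1 → 1 ≤ j → j ≤ m' → p i ≠ q j := by
    intro i j hi hj hjm e
    rcases Nat.eq_zero_or_pos i with h0 | h0
    · subst h0
      rw [p0] at e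
      rcases Nat.lt_or_ge j m' with h1 | h1
      · exact hc (e ▸ hF' ((hq _).2 ⟨j, hj, h1, rfl⟩))
      · have : j = m' := by omega
        subst this
        rw [qm] at e
        exact a2 e
    · rcases Nat.lt_or_ge j m' with h1 | h1
      · obtain ⟨e1, e2⟩ := key i j h0 (by omega) hj h1 (Or.inl e)
        subst e2; subst e1
        exact hne e
      · have : j = m' := by omega
        subst this
        rw [qm] at e
        exact hd' (e ▸ hF ((hp _).2 ⟨i, h0, by omega, rfl⟩))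
  have hXE : XE G (seg p 0 (m - 1)) (seg q 1 m') (p (m - 1)) (q 1) := by
    rintro a ⟨i, _, hi, rfl⟩ b ⟨j, hj, hjm, rfl⟩
    constructor
    · intro h
      rcases Nat.eq_zero_or_pos i with h0 | h0
      · exfalso
        subst h0
        rw [p0] at h
        rcases Nat.lt_or_ge j m' with h1 | h1
        · exact (a9 _ ((hq _).2 ⟨j, hj, h1, rfl⟩)).1 h
        · have : j = m' := by omega
          subst this
          rw [qm] at h
          exact a5 h
      · rcases Nat.lt_or_ge j m' with h1 | h1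
        · obtain ⟨e1, e2⟩ := key i j h0 (by omega) hj h1 (Or.inr h)
          subst e2; subst e1
          exact ⟨rfl, rfl⟩
        · exfalso
          have : j = m' := by omega
          subst this
          rw [qm] at h
          exact (a8 _ ((hp _).2 ⟨i, h0, by omega, rfl⟩)).2 h.symm
    · rintro ⟨e1, e2⟩
      rw [e1, e2]; exact hcon
  have hdis : Disjoint (seg p 0 (m - 1)) (seg q 1 m') := by
    rw [Set.disjoint_left]
    rintro w ⟨i, _, hi, rfl⟩ ⟨j, hj, hjm, e⟩
    exact hneq i j hi hj hjm e.symm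
  have hpath := (pf.seg (Nat.zero_le (m - 1)) (by omega)).append (qf.seg (i := 1) (by omega)
    (le_refl m')) hdis hXE
  rw [p0, qm] at hpath
  have e1 := hE m c c' _ hI.2.2.2 hc hc' (by omega) (by
    rintro w (h | h | h)
    · exact Or.inl h
    · exact Or.inr (Or.inl h)
    · exact Or.inr (Or.inr (hF h)))
  have e2 := hE m' d d' _ hI'.2.2.2 hd hd' (by omega) (by
    rintro w (h | h | h)
    · exact Or.inl h
    · exact Or.inr (Or.inl h)
    · exact Or.inr (Or.inr (hF' h)))
  have e3 := hE _ c d' _ hpath hc hd' (by omega) (by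
    rintro w (⟨i, _, hi, rfl⟩ | ⟨j, hj, hjm, rfl⟩)
    · rcases Nat.eq_zero_or_pos i with h0 | h0
      · left; rw [h0, p0]
      · right; right; exact hF ((hp _).2 ⟨i, h0, by omega, rfl⟩)
    · rcases Nat.lt_or_ge j m' with h1 | h1
      · right; right; exact hF' ((hq _).2 ⟨j, hj, h1, rfl⟩)
      · right; left
        rw [show j = m' by omega, qm])
  obtain ⟨x, hx⟩ := e1
  obtain ⟨y, hy⟩ := e2
  obtain ⟨z, hz⟩ := e3
  omega

end Pool.Agent.H20.ER3
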