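import Pool.Agent.H66.ER2.Lib
import Pool.Agent.H48.ER2.Top

/-!
# MP_816b90_co: Operation C. Definitions.

`G` is a graph on `V`, `R` a set of vertices. The roots are the elements `Sum.inr F` of
`V ⊕ Set V`. In the mixed graph `MG G R` both the vertices of `R` and the roots are present; in
`OC G R` (Operation C) the vertices of `R` are deleted (isolated).
-/

set_option autoImplicit false

namespace Pool.Agent.H20.ER3

open Pool.Agent.H48.ER Pool.Agent.H52.ER2 Pool.Agent.H66.ER2

variable {V : Type}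

/-- `F` is the set of a root, `a` is a vertex which sees it -/
def Sees (G : SimpleGraph V) (R : Set V) (F : Set V) (a : V) : Prop :=
  a ∉ R ∧ F ⊆ R ∧ Cn G F ∧ ∃ f ∈ F, G.Adj a f

/-- the adjacency of the mixed graph -/
def mAdj (G : SimpleGraph V) (R : Set V) : V ⊕ Set V → V ⊕ Set V → Prop
  | .inl a, .inl b => G.Adj a b
  | .inl a, .inr F => Sees G R F a
  | .inr F, .inl a => Sees G R F a
  | .inr _, .inr _ => False

/-- the mixed graph: the graph `G` and all roots; the root of the connected set `F ⊆ R` is adjacent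
to the vertices outside of `R` which have a neighbour in `F` -/
def MG (G : SimpleGraph V) (R : Set V) : SimpleGraph (V ⊕ Set V) where
  Adj := mAdj G R
  symm := ⟨by
    rintro (a | F) (b | F') h
    · exact (show G.Adj a b from h).symm
    · exact h
    · exact h
    · exact h⟩
  loopless := ⟨by
    rintro (a | F) h
    · exact G.loopless.irrefl a h
    · exact h⟩

/-- Operation C: the vertices of `R` are deleted, the roots are added -/
def OC (G : SimpleGraph V) (R : Set V) : SimpleGraph (V ⊕ Set V) :=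
  res (MG G R) {x | ∀ r ∈ R, x ≠ Sum.inl r}

/-- the roots in a set of vertices -/
def rt (Z : Set (V ⊕ Set V)) : Set (Set V) := {F | Sum.inr F ∈ Z}

/-- separated: no root of `Z` contains or touches a vertex of `Z` which is in `R` -/
def Sp (G : SimpleGraph V) (R : Set V) (Z : Set (V ⊕ Set V)) : Prop :=
  ∀ F, Sum.inr F ∈ Z → ∀ r ∈ R, Sum.inl r ∈ Z → r ∉ F ∧ ∀ f ∈ F, ¬ G.Adj r f

/-- allowed sets: separated, and with at most one root in the case `o` -/
def Al (o : Prop) (G : SimpleGraph V) (R : Set V) (Z : Set (V ⊕ Set V)) : Prop :=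
  Sp G R Z ∧ (o → (rt Z).Subsingleton)

/-- `R` is even: chordless paths with interior in `R` between nonadjacent vertices outside of `R`
are even -/
def EvS (G : SimpleGraph V) (R : Set V) : Prop :=
  ∀ (n : ℕ) (c d : V) (X : Set V), IP G n c d X → c ∉ R → d ∉ R → n ≠ 1 →
    (∀ w ∈ X, w = c ∨ w = d ∨ w ∈ R) → Even n

/-- `R` is asymmetric -/
def AsS (G : SimpleGraph V) (R : Set V) : Prop :=
  ∀ (c1 c2 c3 : V) (F1 F2 : Set V), G.Adj c2 c3 → ¬ G.Adj c1 c2 → ¬ G.Adj c1 c3 →
    Sees G R F1 c1 → Sees G R F1 c2 → ¬ Sees G R F1 c3 → c3 ∉ R →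
    Sees G R F2 c1 → Sees G R F2 c3 → ¬ Sees G R F2 c2 → False

/-- `S` is another full component: connected, disjoint from `R`, no edges between `S` and `R`, and
a vertex outside of `R` and `S` has a neighbour in `S` if and only if it has a neighbour in `R` -/
structure Star (G : SimpleGraph V) (R S : Set V) : Prop where
  cn : Cn G S
  dis : Disjoint R S
  ne : ∀ r ∈ R, ∀ s ∈ S, ¬ G.Adj r s
  nb : ∀ c, c ∉ R → c ∉ S → ((∃ s ∈ S, G.Adj c s) ↔ ∃ r ∈ R, G.Adj c r)

/-- a new vertex `x` whose neighbours are the vertices outside of `R` with a neighbour in `R` is in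
no antihole with at least seven vertices which contains two vertices of `R`: the antihole consists
of `x` and of the path `X` of the complement, from `f` to `g`, both in `R` -/
def X7 (G : SimpleGraph V) (R : Set V) : Prop :=
  ∀ (n : ℕ) (f g : V) (X : Set V), IP Gᶜ n f g X → 5 ≤ n → f ∈ R → g ∈ R →
    ¬ ∀ w ∈ X, w = f ∨ w = g ∨ (w ∉ R ∧ ∃ r ∈ R, G.Adj w r)

/-- `F` and `F'` touch -/
def Tch (G : SimpleGraph V) (F F' : Set V) : Prop := ∃ f ∈ F, ∃ f' ∈ F', f = f' ∨ G.Adj f f'

/-- a hole: the vertex `c` and the path `X` from `x` to `y` with `n` edges -/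
structure HS {W : Type} (M : SimpleGraph W) (n : ℕ) (x y c : W) (X : Set W) : Prop where
  ip : IP M n x y X
  two : 2 ≤ n
  nm : c ∉ X
  l : M.Adj c x
  r : M.Adj c y
  int : ∀ w ∈ X, M.Adj c w → w = x ∨ w = y

/-- a prism with rungs `g i 0, .., g i (n i)` -/
structure PI {W : Type} (M : SimpleGraph W) (n : Fin 3 → ℕ) (g : Fin 3 → ℕ → W) : Prop where
  pos : ∀ i, 1 ≤ n i
  inj : ∀ i j k l, k ≤ n i → l ≤ n j → g i k = g j l → i = j ∧ k = l
  adj : ∀ i j k l, k ≤ n i → l ≤ n j → (M.Adj (g i k) (g j l) ↔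
    (i = j ∧ (k + 1 = l ∨ l + 1 = k)) ∨ (i ≠ j ∧ ((k = 0 ∧ l = 0) ∨ (k = n i ∧ l = n j))))

/-- the vertices of the prism -/
def vI {W : Type} (n : Fin 3 → ℕ) (g : Fin 3 → ℕ → W) : Set W := {v | ∃ i k, k ≤ n i ∧ g i k = v}

/-- an antihole with `N` vertices `w 0, .., w (N - 1)` -/
structure AHI {W : Type} (M : SimpleGraph W) (N : ℕ) (w : ℕ → W) : Prop where
  inj : ∀ i j, i < N → j < N → w i = w j → i = j
  adj : ∀ i j, i < N → j < N → i ≠ j → (M.Adj (w i) (w j) ↔
    ¬ (i + 1 = j ∨ j + 1 = i ∨ (i = 0 ∧ j + 1 = N) ∨ (j = 0 ∧ i + 1 = N)))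

/-- every hole of the mixed graph with allowed vertex set is even -/
def HMs (o : Prop) (G : SimpleGraph V) (R : Set V) : Prop :=
  ∀ (n : ℕ) (x y c : V ⊕ Set V) (X : Set (V ⊕ Set V)), HS (MG G R) n x y c X →
    Al o G R (insert c X) → Even n

/-- no odd prism of the mixed graph with allowed vertex set -/
def PMs (o : Prop) (G : SimpleGraph V) (R : Set V) : Prop :=
  ∀ (n : Fin 3 → ℕ) (g : Fin 3 → ℕ → V ⊕ Set V), PI (MG G R) n g → Al o G R (vI n g) →
    ¬ ∀ i, Odd (n i)

/-- no antihole in Operation C (with at most one root in the case `o`) -/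
def AMs (o : Prop) (G : SimpleGraph V) (R : Set V) : Prop :=
  ∀ (N : ℕ) (w : ℕ → V ⊕ Set V), 5 ≤ N → AHI (OC G R) N w →
    ¬ (o → (rt {v | ∃ i, i < N ∧ w i = v}).Subsingleton)

/-- the weight of the roots in `Z` -/
noncomputable def wt (Z : Set (V ⊕ Set V)) : ℕ := ∑ᶠ F ∈ rt Z, (F.ncard + 1)

/-- an odd hole of the mixed graph with allowed vertex set of smallest weight -/
structure MH (o : Prop) (G : SimpleGraph V) (R : Set V) (n : ℕ) (x y c : V ⊕ Set V)
    (X : Set (V ⊕ Set V)) : Prop where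
  hs : HS (MG G R) n x y c X
  odd : Odd n
  al : Al o G R (insert c X)
  mn : ∀ (n' : ℕ) (x' y' c' : V ⊕ Set V) (X' : Set (V ⊕ Set V)), HS (MG G R) n' x' y' c' X' →
    Odd n' → Al o G R (insert c' X') → wt (insert c X) ≤ wt (insert c' X')

/-- an odd prism of the mixed graph with allowed vertex set of smallest weight -/
structure MP (o : Prop) (G : SimpleGraph V) (R : Set V) (n : Fin 3 → ℕ)
    (g : Fin 3 → ℕ → V ⊕ Set V) : Prop where
  pi : PI (MG G R) n g
  odd : ∀ i, Odd (n i)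
  al : Al o G R (vI n g)
  mn : ∀ (n' : Fin 3 → ℕ) (g' : Fin 3 → ℕ → V ⊕ Set V), PI (MG G R) n' g' → (∀ i, Odd (n' i)) →
    Al o G R (vI n' g') → wt (vI n g) ≤ wt (vI n' g')

/-- `F` is the interior of a chordless path from `c` to `d` with `m` edges -/
def Int (G : SimpleGraph V) (F : Set V) (m : ℕ) (c d : V) : Prop :=
  2 ≤ m ∧ c ∉ F ∧ d ∉ F ∧ IP G m c d (insert c (insert d F))

/-- `F` is a path from `f` to `f'` with `m` edges, `m` even, the only neighbour of `y` in `F` is
`f`, the only neighbour of `a2` and of `a3` in `F` is `f'` -/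
structure Cr (G : SimpleGraph V) (F : Set V) (m : ℕ) (f f' y a2 a3 : V) : Prop where
  ip : IP G m f f' F
  ev : Even m
  hy : ∀ w ∈ F, G.Adj y w ↔ w = f
  h2 : ∀ w ∈ F, G.Adj a2 w ↔ w = f'
  h3 : ∀ w ∈ F, G.Adj a3 w ↔ w = f'

/-- a vertex of `R` in the mixed graph -/
def InR (R : Set V) (x : V ⊕ Set V) : Prop := ∃ r ∈ R, x = Sum.inl r

/-- the vertices of `R` in a set of vertices -/
def rv (R : Set V) (Z : Set (V ⊕ Set V)) : Set V := {r | r ∈ R ∧ Sum.inl r ∈ Z}

/-- a separated odd prism of the mixed graph with the smallest number of vertices of `R` -/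
structure MR (H : SimpleGraph V) (R : Set V) (n : Fin 3 → ℕ) (g : Fin 3 → ℕ → V ⊕ Set V) :
    Prop where
  pi : PI (MG H R) n g
  odd : ∀ i, Odd (n i)
  sp : Sp H R (vI n g)
  mn : ∀ (n' : Fin 3 → ℕ) (g' : Fin 3 → ℕ → V ⊕ Set V), PI (MG H R) n' g' → (∀ i, Odd (n' i)) →
    Sp H R (vI n' g') → (rv R (vI n g)).ncard ≤ (rv R (vI n' g')).ncard

end Pool.Agent.H20.ER3
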