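import Pool.Agent.H20.ER3.Lib

/-!
# MP_816b90_co: Operation C, the induction step and the reduction of the conjecture to (S)
-/

set_option autoImplicit false
set_option linter.unusedVariables false

namespace Pool.Agent.H20.ER3

open Pool.Agent.H48.ER Pool.Agent.H52.ER2 Pool.Agent.H66.ER2

/-- the roots of Operation C: the old ones, the deleted vertices and the new ones -/
def Yr {V : Type} (R Y : Set V) : Set (V ⊕ Set V) := {x | ∀ a, x = Sum.inl a → a ∈ Y ∨ a ∈ R}

theorem yr_compl {V : Type} (R Y : Set V) : (Yr R Y)ᶜ = Sum.inl '' (Y ∪ R)ᶜ := by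
  ext x
  constructor
  · intro hx
    have hx' : ¬ ∀ a, x = Sum.inl a → a ∈ Y ∨ a ∈ R := hx
    push Not at hx'
    obtain ⟨a, rfl, h1, h2⟩ := hx'
    exact ⟨a, fun h => h.elim h1 h2, rfl⟩
  · rintro ⟨a, ha, rfl⟩ hx
    exact ha (hx a rfl)

theorem pf_FS (hL1 : U_L1) (hL2 : U_L2) : U_FS := by
  intro V _ G R S Y hG hC hE hA hS hY hYR hRY hcl hSN
  have hG' : Cls (OC G R) := hL1 V G R S hG hC hE hA hS
  have hst : ∀ u ∈ Yr R Y, ∀ w ∈ Yr R Y, ¬ (OC G R).Adj u w := by
    intro u hu w hw h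
    obtain ⟨h1, h2, h3⟩ := h
    rcases u with a | F <;> rcases w with b | F'
    · have ha : a ∉ R := fun h => h1 a h rfl
      have hb : b ∉ R := fun h => h2 b h rfl
      have ha' := (hu a rfl).resolve_right ha
      have hb' := (hw b rfl).resolve_right hb
      exact hY a ha' b hb' h3
    · have ha : a ∉ R := fun h => h1 a h rfl
      have ha' := (hu a rfl).resolve_right ha
      obtain ⟨_, hF, _, f, hf, hf'⟩ : Sees G R F' a := h3
      exact hYR a ha' ha f (hF hf) hf'
    · have hb : b ∉ R := fun h => h2 b h rfl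
      have hb' := (hw b rfl).resolve_right hb
      obtain ⟨_, hF, _, f, hf, hf'⟩ : Sees G R F b := h3
      exact hYR b hb' hb f (hF hf) hf'
    · exact h3
  have hcard : ((Yr R Y)ᶜ).ncard < (Yᶜ).ncard := by
    rw [yr_compl, Set.ncard_image_of_injective _ Sum.inl_injective]
    refine Set.ncard_lt_ncard ?_ (Set.toFinite _)
    refine ⟨fun a ha h => ha (Or.inl h), fun hle => hRY ?_⟩
    intro r hr
    by_contra hY'
    exact hle (show r ∈ Yᶜ from hY') (Or.inr hr)
  have hncl : ¬ Clq (OC G R) (Yr R Y)ᶜ := by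
    intro h
    apply hcl
    intro u hu w hw hne
    have h1 : Sum.inl u ∈ (Yr R Y)ᶜ := by rw [yr_compl]; exact ⟨u, hu, rfl⟩
    have h2 : Sum.inl w ∈ (Yr R Y)ᶜ := by rw [yr_compl]; exact ⟨w, hw, rfl⟩
    exact (h _ h1 _ h2 (fun e => hne (Sum.inl.inj e))).2.2
  obtain ⟨x, hx, y, hy, hg⟩ := hSN (V ⊕ Set V) (OC G R) (Yr R Y) hG' hst hcard hncl
  have hx' : x ∈ (Yr R Y)ᶜ := hx
  have hy' : y ∈ (Yr R Y)ᶜ := hy
  rw [yr_compl] at hx' hy'
  obtain ⟨p, hp, rfl⟩ := hx'
  obtain ⟨q, hq, rfl⟩ := hy'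
  exact ⟨p, fun h => hp (Or.inl h), q, fun h => hq (Or.inl h),
    hL2 V G R S p q hG hC hE hA hS (fun h => hp (Or.inr h)) (fun h => hq (Or.inr h)) hg⟩

/-- (S) for all stable sets implies that all graphs of the class can be contracted to complete
graphs -/
theorem ct_of_SN (h : ∀ N, SN N) (V : Type) [Finite V] (G : SimpleGraph V) (S : Set V)
    (hS : Sup G S) (hG : Cls G) : CT G S := by
  have key : ∀ (N : ℕ) (G : SimpleGraph V) (S : Set V), S.ncard ≤ N → Sup G S → Cls G →
      CT G S := by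
    intro N
    induction N with
    | zero =>
      intro G S hN _ _
      have h0 : S = ∅ := (Set.ncard_eq_zero (Set.toFinite _)).mp (by omega)
      refine CT.clique G S ?_
      rw [h0]
      intro x hx
      exact hx.elim
    | succ N ih =>
      intro G S hN hS hG
      by_cases hcl : Clq G S
      · exact CT.clique G S hcl
      · have hc2 : (Sᶜ)ᶜ = S := compl_compl S
        obtain ⟨x, hx, y, hy, hxy, hc⟩ := h (S.ncard + 1) V G Sᶜ hG
          (fun u hu w _ ha => hu (hS u w ha).1) (by rw [hc2]; omega) (by rw [hc2]; exact hcl)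
        have hx' : x ∈ S := by by_contra h; exact hx h
        have hy' : y ∈ S := by by_contra h; exact hy h
        refine CT.step G S x y hx' hy' hxy (ih _ _ ?_ ?_ hc)
        · have : (S \ {y}).ncard < S.ncard := Set.ncard_sdiff_singleton_lt_of_mem hy'
          omega
        · rintro a b ⟨h1, h2, h3, h4⟩
          rcases h4 with h | ⟨rfl, h⟩ | ⟨rfl, h⟩
          · exact ⟨⟨(hS a b h).1, h2⟩, ⟨(hS a b h).2, h3⟩⟩
          · exact ⟨⟨hx', h2⟩, ⟨(hS y b h).2, h3⟩⟩
          · exact ⟨⟨(hS a y h).1, h2⟩, ⟨hx', h3⟩⟩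
  exact key _ G S le_rfl hS hG

end Pool.Agent.H20.ER3
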