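import Pool.Agent.H20.ER3.Targets

/-!
# MP_816b90_co: Operation C, closed lemmas
-/

set_option autoImplicit false
set_option linter.unusedVariables false
set_option linter.unusedSectionVars false

namespace Pool.Agent.H20.ER3

open Pool.Agent.H48.ER Pool.Agent.H52.ER2 Pool.Agent.H66.ER2

variable {V : Type} {G : SimpleGraph V} {R : Set V}

theorem mg_ll {a b : V} : (MG G R).Adj (Sum.inl a) (Sum.inl b) ↔ G.Adj a b := Iff.rfl

theorem mg_lr {a : V} {F : Set V} : (MG G R).Adj (Sum.inl a) (Sum.inr F) ↔ Sees G R F a := Iff.rfl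

theorem mg_rl {a : V} {F : Set V} : (MG G R).Adj (Sum.inr F) (Sum.inl a) ↔ Sees G R F a := Iff.rfl

theorem mg_rr {F F' : Set V} : ¬ (MG G R).Adj (Sum.inr F) (Sum.inr F') := fun h => h

/-- the neighbours of a root -/
theorem root_adj {F : Set V} {w : V ⊕ Set V} (h : (MG G R).Adj (Sum.inr F) w) :
    ∃ a, w = Sum.inl a ∧ Sees G R F a := by
  rcases w with a | F'
  · exact ⟨a, rfl, h⟩
  · exact absurd h mg_rr

/-- a neighbour of a vertex of `R` is a vertex of `G` -/
theorem inR_adj {r : V} (hr : r ∈ R) {w : V ⊕ Set V} (h : (MG G R).Adj (Sum.inl r) w) :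
    ∃ a, w = Sum.inl a ∧ G.Adj r a := by
  rcases w with a | F'
  · exact ⟨a, rfl, h⟩
  · exact absurd hr (show Sees G R F' r from h).1

theorem root_not_inR {F : Set V} {x : V ⊕ Set V} (hx : InR R x) :
    ¬ (MG G R).Adj (Sum.inr F) x := by
  obtain ⟨r, hr, rfl⟩ := hx
  intro h
  exact (show Sees G R F r from h).1 hr

theorem InR.inl_iff {r : V} : InR R (Sum.inl r) ↔ r ∈ R := by
  constructor
  · rintro ⟨s, hs, e⟩
    have : r = s := Sum.inl.inj e
    rw [this]; exact hs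
  · intro h
    exact ⟨r, h, rfl⟩

theorem not_inR_root {F : Set V} : ¬ InR R (Sum.inr F) := by
  rintro ⟨s, _, e⟩
  cases e

theorem Sees.mono {F F' : Set V} {a : V} (h : Sees G R F a) (hs : F ⊆ F') (hR : F' ⊆ R)
    (hC : Cn G F') : Sees G R F' a := by
  obtain ⟨h1, _, _, f, hf, ha⟩ := h
  exact ⟨h1, hR, hC, f, hs hf, ha⟩

theorem Sp.mono {Z Z' : Set (V ⊕ Set V)} (h : Sp G R Z) (hs : Z' ⊆ Z) : Sp G R Z' :=
  fun F hF r hr hrZ => h F (hs hF) r hr (hs hrZ)

theorem rt_mono {Z Z' : Set (V ⊕ Set V)} (hs : Z' ⊆ Z) : rt Z' ⊆ rt Z := fun _ h => hs h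

theorem Al.mono {o : Prop} {Z Z' : Set (V ⊕ Set V)} (h : Al o G R Z) (hs : Z' ⊆ Z) :
    Al o G R Z' :=
  ⟨h.1.mono hs, fun ho => (h.2 ho).anti (rt_mono hs)⟩

theorem mem_vI {W : Type} {n : Fin 3 → ℕ} {g : Fin 3 → ℕ → W} {i : Fin 3} {k : ℕ}
    (h : k ≤ n i) : g i k ∈ vI n g := ⟨i, k, h, rfl⟩

/-- the vertices of a path are a connected set -/
theorem ip_cn {n : ℕ} {x y : V} {X : Set V} (h : IP G n x y X) : Cn G X := by
  obtain ⟨g, _, _, _, ga, hX⟩ := h
  intro T hT hne hcl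
  have key : ∀ i, i ≤ n → g i ∈ T → ∀ j, j ≤ n → g j ∈ T := by
    intro i hi hiT
    have up : ∀ d, i + d ≤ n → g (i + d) ∈ T := by
      intro d
      induction d with
      | zero => intro _; exact hiT
      | succ d ih =>
        intro hd
        refine hcl _ (ih (by omega)) _ ?_ ?_
        · rw [hX]; exact ⟨_, hd, rfl⟩
        · rw [ga _ _ (by omega) hd]; left; omega
    have dn : ∀ d, d ≤ i → g (i - d) ∈ T := by
      intro d
      induction d with
      | zero => intro _; exact hiT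
      | succ d ih =>
        intro hd
        refine hcl _ (ih (by omega)) _ ?_ ?_
        · rw [hX]; exact ⟨_, by omega, rfl⟩
        · rw [ga _ _ (by omega) (by omega)]; right; omega
    intro j hj
    by_cases hij : i ≤ j
    · have := up (j - i) (by omega)
      rwa [show i + (j - i) = j by omega] at this
    · have := dn (i - j) (by omega)
      rwa [show i - (i - j) = j by omega] at this
  refine Set.Subset.antisymm hT ?_
  intro v hv
  rw [hX] at hv
  obtain ⟨j, hj, rfl⟩ := hv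
  obtain ⟨u, hu⟩ := hne
  have hu' := hT hu
  rw [hX] at hu'
  obtain ⟨i, hi, rfl⟩ := hu'
  exact key i hi hu j hj

/-- a minimal odd prism exists -/
theorem exists_mp {o : Prop} {n : Fin 3 → ℕ} {g : Fin 3 → ℕ → V ⊕ Set V}
    (hp : PI (MG G R) n g) (ho : ∀ i, Odd (n i)) (ha : Al o G R (vI n g)) :
    ∃ n' g', MP o G R n' g' := by
  classical
  have hex : ∃ w, ∃ n' g', PI (MG G R) n' g' ∧ (∀ i, Odd (n' i)) ∧ Al o G R (vI n' g') ∧
      wt (vI n' g') = w := ⟨_, n, g, hp, ho, ha, rfl⟩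
  obtain ⟨n', g', h1, h2, h3, h4⟩ := Nat.find_spec hex
  refine ⟨n', g', h1, h2, h3, ?_⟩
  intro n'' g'' k1 k2 k3
  rw [h4]
  exact Nat.find_min' hex ⟨n'', g'', k1, k2, k3, rfl⟩

/-- a minimal odd hole exists -/
theorem exists_mh {o : Prop} {n : ℕ} {x y c : V ⊕ Set V} {X : Set (V ⊕ Set V)}
    (hp : HS (MG G R) n x y c X) (ho : Odd n) (ha : Al o G R (insert c X)) :
    ∃ n' x' y' c' X', MH o G R n' x' y' c' X' := by
  classical
  have hex : ∃ w, ∃ n' x' y' c' X', HS (MG G R) n' x' y' c' X' ∧ Odd n' ∧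
      Al o G R (insert c' X') ∧ wt (insert c' X') = w := ⟨_, n, x, y, c, X, hp, ho, ha, rfl⟩
  obtain ⟨n', x', y', c', X', h1, h2, h3, h4⟩ := Nat.find_spec hex
  refine ⟨n', x', y', c', X', h1, h2, h3, ?_⟩
  intro n'' x'' y'' c'' X'' k1 k2 k3
  rw [h4]
  exact Nat.find_min' hex ⟨n'', x'', y'', c'', X'', k1, k2, k3, rfl⟩

/-- a separated odd prism with the smallest number of vertices of `R` exists -/
theorem exists_mr {n : Fin 3 → ℕ} {g : Fin 3 → ℕ → V ⊕ Set V}
    (hp : PI (MG G R) n g) (ho : ∀ i, Odd (n i)) (ha : Sp G R (vI n g)) :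
    ∃ n' g', MR G R n' g' := by
  classical
  have hex : ∃ w, ∃ n' g', PI (MG G R) n' g' ∧ (∀ i, Odd (n' i)) ∧ Sp G R (vI n' g') ∧
      (rv R (vI n' g')).ncard = w := ⟨_, n, g, hp, ho, ha, rfl⟩
  obtain ⟨n', g', h1, h2, h3, h4⟩ := Nat.find_spec hex
  refine ⟨n', g', h1, h2, h3, ?_⟩
  intro n'' g'' k1 k2 k3
  rw [h4]
  exact Nat.find_min' hex ⟨n'', g'', k1, k2, k3, rfl⟩

/-- a path without interior vertex in the graph is a path in every graph with the same edges on
its vertices -/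
theorem ip_to_res {W : Type} {M : SimpleGraph W} {n : ℕ} {x y : W} {X Z : Set W}
    (h : IP M n x y X) (hs : X ⊆ Z) : IP (res M Z) n x y X :=
  h.congr fun u hu v hv => ⟨fun e => e.2.2, fun e => ⟨hs hu, hs hv, e⟩⟩

theorem ip_of_res {W : Type} {M : SimpleGraph W} {n : ℕ} {x y : W} {X Z : Set W}
    (h : IP (res M Z) n x y X) (hs : X ⊆ Z) : IP M n x y X :=
  h.congr fun u hu v hv => ⟨fun e => ⟨hs hu, hs hv, e⟩, fun e => e.2.2⟩

/-- the vertices of a path of a restricted graph with at least one edge are in the set -/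
theorem ip_res_sub {W : Type} {M : SimpleGraph W} {n : ℕ} {x y : W} {X Z : Set W}
    (h : IP (res M Z) n x y X) (hn : 1 ≤ n) : X ⊆ Z := by
  obtain ⟨g, _, _, _, ga, hX⟩ := h
  intro v hv
  rw [hX] at hv
  obtain ⟨i, hi, rfl⟩ := hv
  by_cases h0 : i = 0
  · subst h0
    exact ((ga 0 1 (by omega) hn).2 (Or.inl rfl)).1
  · exact ((ga (i - 1) i (by omega) hi).2 (Or.inl (by omega))).2.1

/-- if all holes with allowed vertex set are even then the restriction of the mixed graph to an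
allowed set has no odd hole -/
theorem noh_res {o : Prop} (h : HMs o G R) {Z : Set (V ⊕ Set V)} (hZ : Al o G R Z) :
    NOH (res (MG G R) Z) := by
  intro n u v c X hX hn hc h1 h2 h3
  have hs : X ⊆ Z := ip_res_sub hX (by omega)
  refine h n u v c X ⟨ip_of_res hX hs, hn, hc, h1.2.2, h2.2.2, ?_⟩ (hZ.mono ?_)
  · intro w hw ha
    exact h3 w hw ⟨h1.1, hs hw, ha⟩
  · exact Set.insert_subset h1.1 hs

end Pool.Agent.H20.ER3
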