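import Pool.Agent.H20.ER3.Lib
import Pool.Agent.H20.ER2.ASI

/-!
# MP_816b90_co: Operation C, roots at corners of different rungs, one long rung
-/

set_option autoImplicit false
set_option linter.unusedVariables false

namespace Pool.Agent.H20.ER3

open Pool.Agent.H48.ER Pool.Agent.H52.ER2 Pool.Agent.H66.ER2

theorem pf_Q7 (hQC : U_QC) (hQE : U_QE) (hGU : U_GU) : U_Q7 := by
  intro V _ G R F F' n g hN hE hA hH hP h00 h11 hn0 hn2 hT
  by_contra hn1
  have hn1' : 3 ≤ n 1 := by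
    have := hP.odd 1
    obtain ⟨x, hx⟩ := this
    omega
  have adj := hP.pi.adj
  obtain ⟨y, a2, a3, f, f', m, e1, e2, e3, s1, s2, s3, C⟩ := hQC V False G R F n g hE hH hP h00
  have hP' := (hQE V False G R n _ (hQE V False G R n g hP).2).1 ![1, 0, 2] (by decide)
  obtain ⟨y', b1, b3, k, k', m', e1', e2', e3', s1', s2', s3', C'⟩ :=
    hQC V False G R F' _ _ hE hH hP' (by
      show g 1 (n 1 - 0) = _
      rw [Nat.sub_zero]; exact h11)
  have q1 : g 1 (n 1 - 1) = Sum.inl y' := e1'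
  have q2 : g 0 (n 0) = Sum.inl b1 := e2'
  have q3 : g 2 (n 2) = Sum.inl b3 := e3'
  rw [hn2] at q3
  -- nonadjacencies
  have na3 : ¬ Sees G R F' a3 := by
    intro h
    have h' : (MG G R).Adj (g 1 (n 1)) (g 2 0) := by rw [h11, e3]; exact h
    rw [adj 1 2 _ _ le_rfl (Nat.zero_le _)] at h'
    rcases h' with ⟨h', _⟩ | ⟨_, ⟨h', _⟩ | ⟨_, h'⟩⟩
    · exact absurd h' (by decide)
    · omega
    · omega
  have nb3 : ¬ Sees G R F b3 := by
    intro h
    have h' : (MG G R).Adj (g 0 0) (g 2 1) := by rw [h00, q3]; exact h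
    rw [adj 0 2 _ _ (Nat.zero_le _) (by omega)] at h'
    rcases h' with ⟨h', _⟩ | ⟨_, ⟨_, h'⟩ | ⟨h', _⟩⟩
    · exact absurd h' (by decide)
    · omega
    · omega
  have ny' : ¬ Sees G R F y' := by
    intro h
    have h' : (MG G R).Adj (g 0 0) (g 1 (n 1 - 1)) := by rw [h00, q1]; exact h
    rw [adj 0 1 _ _ (Nat.zero_le _) (by omega)] at h'
    rcases h' with ⟨h', _⟩ | ⟨_, ⟨_, h'⟩ | ⟨h', _⟩⟩
    · exact absurd h' (by decide)
    · omega
    · omega
  have hab : G.Adj b3 a3 := by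
    have h' : (MG G R).Adj (g 2 1) (g 2 0) := by
      rw [adj 2 2 _ _ (by omega) (Nat.zero_le _)]
      left; exact ⟨rfl, Or.inr rfl⟩
    rw [q3, e3] at h'
    exact h'
  have hyb : ¬ G.Adj y' b3 := by
    intro h
    have h' : (MG G R).Adj (g 1 (n 1 - 1)) (g 2 1) := by rw [q1, q3]; exact h
    rw [adj 1 2 _ _ (by omega) (by omega)] at h'
    rcases h' with ⟨h', _⟩ | ⟨_, ⟨_, h'⟩ | ⟨h', _⟩⟩
    · exact absurd h' (by decide)
    · omega
    · omega
  have hya : ¬ G.Adj y' a3 := by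
    intro h
    have h' : (MG G R).Adj (g 1 (n 1 - 1)) (g 2 0) := by rw [q1, e3]; exact h
    rw [adj 1 2 _ _ (by omega) (by omega)] at h'
    rcases h' with ⟨h', _⟩ | ⟨_, ⟨h', _⟩ | ⟨h', _⟩⟩
    · exact absurd h' (by decide)
    · omega
    · omega
  have hyane : y' ≠ a3 := by
    intro e
    have := hP.pi.inj 1 2 (n 1 - 1) 0 (by omega) (Nat.zero_le _) (by rw [q1, e3, e])
    exact absurd this.1 (by decide)
  have hF : F ⊆ R := s1.2.1
  have hF' : F' ⊆ R := s1'.2.1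
  have hfa3 : ∀ w ∈ F', ¬ G.Adj a3 w := fun w hw h => na3 ⟨s3.1, hF', s1'.2.2.1, w, hw, h⟩
  have hfb3 : ∀ w ∈ F, ¬ G.Adj b3 w := fun w hw h => nb3 ⟨s3'.1, hF, s1.2.2.1, w, hw, h⟩
  have hfy' : ∀ w ∈ F, ¬ G.Adj y' w := fun w hw h => ny' ⟨s1'.1, hF, s1.2.2.1, w, hw, h⟩
  -- the paths
  obtain ⟨p, pf, p0, pm, hp⟩ := IP.pf C.ip
  obtain ⟨q, qf, q0, qm, hq⟩ := IP.pf C'.ip
  have pF : ∀ i, i ≤ m → p i ∈ F := fun i hi => by rw [hp]; exact mem_seg (Nat.zero_le _) hi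
  have qF : ∀ i, i ≤ m' → q i ∈ F' := fun i hi => by rw [hq]; exact mem_seg (Nat.zero_le _) hi
  have K1 : ∀ i j, i ≤ m → j < m' → ¬ (p i = q j ∨ G.Adj (p i) (q j)) := by
    intro i j hi hj ht
    have hsub : seg q 0 (m' - 1) ⊆ R := by
      rintro w ⟨x, h1, h2, rfl⟩
      exact hF' (qF x (by omega))
    have hcn : Cn G (seg q 0 (m' - 1)) := ip_cn (qf.seg (Nat.zero_le _) (by omega))
    have htc : Tch G F (seg q 0 (m' - 1)) := ⟨p i, pF i hi, q j, mem_seg (Nat.zero_le _)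
      (by omega), ht⟩
    have hU := (hGU V G R F (seg q 0 (m' - 1)) hF hsub s1.2.2.1 hcn htc).1
    refine hA y' b3 a3 F' (F ∪ seg q 0 (m' - 1)) hab hyb hya s1' s3' na3 s3.1 ?_ ?_ ?_
    · refine ⟨s1'.1, Set.union_subset hF hsub, hU, q 0, Or.inr (mem_seg le_rfl (Nat.zero_le _)),
        ?_⟩
      rw [C'.hy _ (qF 0 (Nat.zero_le _)), q0]
    · exact s3.mono Set.subset_union_left (Set.union_subset hF hsub) hU
    · rintro ⟨_, _, _, w, hw, ha⟩
      rcases hw with hw | ⟨x, h1, h2, rfl⟩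
      · exact hfb3 w hw ha
      · rw [C'.h3 _ (qF x (by omega)), ← qm] at ha
        have := qf.inj x m' (by omega) le_rfl ha
        omega
  -- the last contact
  have hex : ∃ i, i ≤ m ∧ G.Adj (p i) (q m') := by
    obtain ⟨u, hu, u', hu', h⟩ := hT
    rw [hp] at hu
    rw [hq] at hu'
    obtain ⟨i, _, hi, rfl⟩ := hu
    obtain ⟨j, _, hj, rfl⟩ := hu'
    have hjm : j = m' := by
      by_contra hne
      exact K1 i j hi (by omega) h
    subst hjm
    refine ⟨i, hi, ?_⟩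
    rcases h with h | h
    · exfalso
      have : G.Adj b3 (q j) := by rw [C'.h3 _ (qF j le_rfl), qm]
      rw [← h] at this
      exact hfb3 _ (pF i hi) this
    · exact h
  obtain ⟨i, him, hi, hmax⟩ := Pool.Agent.H20.ER2.grt m (fun i => G.Adj (p i) (q m')) hex
  have hpq : ∀ x j, x ≤ m → j ≤ m' → p x ≠ q j := by
    intro x j hx hj e
    rcases Nat.lt_or_ge j m' with h1 | h1
    · exact K1 x j hx h1 (Or.inl e)
    · have : j = m' := by omega
      subst this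
      have : G.Adj b3 (q j) := by rw [C'.h3 _ (qF j le_rfl), qm]
      rw [← e] at this
      exact hfb3 _ (pF x hx) this
  have hadj : ∀ x j, i ≤ x → x ≤ m → j ≤ m' → (G.Adj (q j) (p x) ↔ j = m' ∧ x = i) := by
    intro x j hx hxm hj
    constructor
    · intro h
      have hjm : j = m' := by
        by_contra hne
        exact K1 x j hxm (by omega) (Or.inr h.symm)
      subst hjm
      refine ⟨rfl, ?_⟩
      by_contra hne
      exact hmax x (by omega) hxm h.symm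
    · rintro ⟨rfl, rfl⟩
      exact hi.symm
  -- the path from `y'` to `a3`
  have P1 := (qf.seg (Nat.zero_le m') le_rfl).append (pf.seg him le_rfl) (by
    rw [Set.disjoint_left]
    rintro w ⟨j, _, hj, rfl⟩ ⟨x, hx, hxm, e⟩
    exact hpq x j hxm hj e) (by
    rintro a ⟨j, _, hj, rfl⟩ b ⟨x, hx, hxm, rfl⟩
    rw [hadj x j hx hxm hj]
    constructor
    · rintro ⟨rfl, rfl⟩; exact ⟨rfl, rfl⟩
    · rintro ⟨h1, h2⟩
      exact ⟨qf.inj _ _ hj le_rfl h1, pf.inj _ _ hxm him h2⟩)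
  have P2 := P1.cons (u := y') (by
    rintro (⟨j, _, hj, e⟩ | ⟨x, hx, hxm, e⟩)
    · exact s1'.1 (e ▸ hF' (qF j hj))
    · exact s1'.1 (e ▸ hF (pF x hxm))) (by
    rintro w (⟨j, _, hj, rfl⟩ | ⟨x, hx, hxm, rfl⟩)
    · rw [C'.hy _ (qF j hj), q0]
    · constructor
      · intro h; exact absurd h (hfy' _ (pF x hxm))
      · intro h; exact absurd h (hpq x 0 hxm (Nat.zero_le _)))
  have P3 := P2.snoc (u := a3) (by
    rintro (e | (⟨j, _, hj, e⟩ | ⟨x, hx, hxm, e⟩))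
    · exact hyane e.symm
    · exact s3.1 (e ▸ hF' (qF j hj))
    · exact s3.1 (e ▸ hF (pF x hxm))) (by
    rintro w (rfl | (⟨j, _, hj, rfl⟩ | ⟨x, hx, hxm, rfl⟩))
    · constructor
      · intro h; exact absurd h.symm hya
      · intro h
        exact absurd (hF (pF m le_rfl)) (h ▸ s1'.1)
    · constructor
      · intro h; exact absurd h (hfa3 _ (qF j hj))
      · intro h; exact absurd h.symm (hpq m j le_rfl hj)
    · rw [C.h3 _ (pF x hxm), pm])
  have E1 := hE _ y' a3 _ P3 s1'.1 s3.1 (by omega) (by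
    rintro w (rfl | (rfl | (⟨j, _, hj, rfl⟩ | ⟨x, hx, hxm, rfl⟩)))
    · exact Or.inr (Or.inl rfl)
    · exact Or.inl rfl
    · exact Or.inr (Or.inr (hF' (qF j hj)))
    · exact Or.inr (Or.inr (hF (pF x hxm))))
  -- the hole
  have Q1 := (pf.seg him le_rfl).rev
  have Q2 := Q1.snoc (u := q m') (by
    rintro ⟨x, hx, hxm, e⟩
    exact hpq x m' hxm le_rfl e) (by
    rintro w ⟨x, hx, hxm, rfl⟩
    rw [hadj x m' hx hxm le_rfl]
    constructor
    · rintro ⟨_, rfl⟩; rfl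
    · intro h; exact ⟨rfl, pf.inj _ _ hxm him h⟩)
  have Q3 := Q2.snoc (u := b3) (by
    rintro (e | ⟨x, hx, hxm, e⟩)
    · exact s3'.1 (e ▸ hF' (qF m' le_rfl))
    · exact s3'.1 (e ▸ hF (pF x hxm))) (by
    rintro w (rfl | ⟨x, hx, hxm, rfl⟩)
    · rw [C'.h3 _ (qF m' le_rfl), qm]
    · constructor
      · intro h; exact absurd h (hfb3 _ (pF x hxm))
      · intro h; exact absurd h (hpq x m' hxm le_rfl))
  have E2 := hN _ (p m) b3 a3 _ Q3 (by omega) (by
    rintro (e | (e | ⟨x, hx, hxm, e⟩))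
    · rw [e] at hab; exact G.loopless.irrefl _ hab
    · exact s3.1 (e ▸ hF' (qF m' le_rfl))
    · exact s3.1 (e ▸ hF (pF x hxm))) (by rw [C.h3 _ (pF m le_rfl), pm]) hab.symm (by
    rintro w (rfl | (rfl | ⟨x, hx, hxm, rfl⟩)) h
    · exact Or.inr rfl
    · exact absurd h (hfa3 _ (qF m' le_rfl))
    · left
      rw [C.h3 _ (pF x hxm), ← pm] at h
      exact h)
  obtain ⟨a, ha⟩ := E1
  obtain ⟨b, hb⟩ := E2
  obtain ⟨c, hc⟩ := C.ev
  obtain ⟨d, hd⟩ := C'.ev
  omega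

end Pool.Agent.H20.ER3
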